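import Pool.Agent.Q264.CB.Stm

/-!
# Project CB (helper264), job CB-ARR: the chain is an arrangement
-/

set_option autoImplicit false

namespace Pool.Agent.Q153.CB

open Pool.Agent.Q264.CB

/-- the members of the chain, indexed by natural numbers -/
def fm (l : ℕ) (σ : ℝ) (i : ℕ) : Set ℂ :=
  if i = 0 then body 2 2 1
  else if i = 2 * l + 1 then body (4 * l + 3) (4 * l + 3) σ
  else if i % 2 = 1 then body (2 * i + 3) (2 * i) 0
  else body (2 * i) (2 * i + 3) 0

theorem fam_eq (l : ℕ) (σ : ℝ) (i : Fin (2 * l + 2)) : fam l σ i = fm l σ i.val := rfl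

theorem cs1 (u : Circle) : (u : ℂ).re ^ 2 + (u : ℂ).im ^ 2 = 1 := by
  have hu : (u : ℂ).re * (u : ℂ).re + (u : ℂ).im * (u : ℂ).im = 1 := by
    rw [← Complex.normSq_apply]
    exact Circle.normSq_coe u
  nlinarith

theorem rt_nn (a b : ℝ) (u : Circle) : 0 ≤ rt a b u := Real.sqrt_nonneg _

theorem rt_sq (a b : ℝ) (u : Circle) : rt a b u ^ 2 = a ^ 2 * (u : ℂ).re ^ 2 + b ^ 2 * (u : ℂ).im ^ 2 := by
  unfold rt
  rw [Real.sq_sqrt (by positivity)]
  ring

theorem rt_le (a b R : ℝ) (u : Circle) (hR : 0 ≤ R) (ha : a ^ 2 ≤ R ^ 2) (hb : b ^ 2 ≤ R ^ 2) :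
    rt a b u ≤ R := by
  apply le_of_sq_le_sq _ hR
  rw [rt_sq]
  have h := cs1 u
  nlinarith [sq_nonneg (u : ℂ).re, sq_nonneg (u : ℂ).im, mul_le_mul_of_nonneg_right ha (sq_nonneg (u : ℂ).re),
    mul_le_mul_of_nonneg_right hb (sq_nonneg (u : ℂ).im)]

theorem le_rt (a b r : ℝ) (u : Circle) (ha : r ^ 2 ≤ a ^ 2) (hb : r ^ 2 ≤ b ^ 2) :
    r ≤ rt a b u := by
  apply le_of_sq_le_sq _ (rt_nn a b u)
  rw [rt_sq]
  have h := cs1 u
  nlinarith [sq_nonneg (u : ℂ).re, sq_nonneg (u : ℂ).im, mul_le_mul_of_nonneg_right ha (sq_nonneg (u : ℂ).re),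
    mul_le_mul_of_nonneg_right hb (sq_nonneg (u : ℂ).im)]

/-- a pair of crossing members -/
structure Cross (A B : Set ℂ) : Prop where
  quad : ∃ α β γ : ℝ, α ≠ 0 ∧ ∀ u : Circle, supp A u = supp B u →
    α * (u : ℂ).im ^ 2 + β * (u : ℂ).im + γ = 0
  trans : ∀ (u : Circle) (z : ℂ), supp A u = supp B u → z ∈ A → z ∈ B → ip z u ≠ supp A u

theorem crossA (h : S_SUPP) : Cross (body 2 2 1) (body 5 2 0) := by
  obtain ⟨h1, h2, -⟩ := h 2 2 1 (by norm_num) (by norm_num)
  obtain ⟨h3, h4, -⟩ := h 5 2 0 (by norm_num) (by norm_num)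
  have key : ∀ u : Circle, supp (body 2 2 1) u = supp (body 5 2 0) u → rt 2 2 u = 2 ∧
      rt 5 2 u = 2 + (u : ℂ).im ∧ 22 * (u : ℂ).im ^ 2 + 4 * (u : ℂ).im + (-21) = 0 := by
    intro u hu
    rw [h1, h3] at hu
    have e1 := rt_sq 2 2 u
    have e2 := rt_sq 5 2 u
    have hc := cs1 u
    have e3 : rt 2 2 u = 2 := by
      have h5 : rt 2 2 u ^ 2 = 2 ^ 2 := by
        rw [e1]
        linear_combination 4 * hc
      exact (sq_eq_sq₀ (rt_nn 2 2 u) (by norm_num)).1 h5
    have e4 : rt 5 2 u = 2 + (u : ℂ).im := by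
      rw [e3] at hu
      linarith
    refine ⟨e3, e4, ?_⟩
    rw [e4] at e2
    linear_combination e2 + 25 * hc
  refine ⟨⟨22, 4, -21, by norm_num, fun u hu => (key u hu).2.2⟩, ?_⟩
  intro u z hu hz1 hz2 hip
  obtain ⟨e1, e2, e3⟩ := key u hu
  obtain ⟨a1, a2⟩ := h2 u z hz1 hip
  obtain ⟨b1, b2⟩ := h4 u z hz2 (hip.trans hu)
  have hc := cs1 u
  have hs1 : (u : ℂ).im ≤ 1 := by nlinarith [sq_nonneg (u : ℂ).re]
  have hs2 : -1 ≤ (u : ℂ).im := by nlinarith [sq_nonneg (u : ℂ).re]
  rw [e1] at a1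
  rw [e2] at b1
  have h5 : (2 : ℝ) + (u : ℂ).im ≠ 0 := by linarith
  rw [a1] at b1
  have h6 : (u : ℂ).re * (2 * (2 + (u : ℂ).im) - 25) = 0 := by
    field_simp at b1
    linarith
  rcases mul_eq_zero.1 h6 with h7 | h7
  · rw [h7] at hc
    have h8 : (u : ℂ).im ^ 2 = 1 := by linarith
    rw [h8] at e3
    have h9 : (u : ℂ).im = -1 / 4 := by linarith
    rw [h9] at h8
    norm_num at h8
  · linarith

theorem crossB (h : S_SUPP) (a b a' b' : ℝ) (ha : 0 < a) (hb : 0 < b) (ha' : 0 < a') (hb' : 0 < b')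
    (h1 : (a' < a ∧ b < b') ∨ (a < a' ∧ b' < b)) : Cross (body a b 0) (body a' b' 0) := by
  obtain ⟨h2, h3, -⟩ := h a b 0 ha hb
  obtain ⟨h4, h5, -⟩ := h a' b' 0 ha' hb'
  have key : ∀ u : Circle, supp (body a b 0) u = supp (body a' b' 0) u → rt a b u = rt a' b' u := by
    intro u hu
    rw [h2, h4] at hu
    linarith
  refine ⟨⟨b ^ 2 - b' ^ 2 - (a ^ 2 - a' ^ 2), 0, a ^ 2 - a' ^ 2, ?_, fun u hu => ?_⟩, ?_⟩
  · rcases h1 with ⟨x, y⟩ | ⟨x, y⟩
    · have : b ^ 2 - b' ^ 2 - (a ^ 2 - a' ^ 2) < 0 := by nlinarith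
      exact this.ne
    · have : 0 < b ^ 2 - b' ^ 2 - (a ^ 2 - a' ^ 2) := by nlinarith
      exact this.ne'
  · have e1 := rt_sq a b u
    have e2 := rt_sq a' b' u
    rw [key u hu, e2] at e1
    have hc := cs1 u
    linear_combination -e1 - (a ^ 2 - a' ^ 2) * hc
  · intro u z hu hz1 hz2 hip
    obtain ⟨a1, a2⟩ := h3 u z hz1 hip
    obtain ⟨b1, b2⟩ := h5 u z hz2 (hip.trans hu)
    have hN : 0 < rt a' b' u := by
      rcases (rt_nn a' b' u).lt_or_eq with h6 | h6
      · exact h6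
      · exfalso
        have e2 := rt_sq a' b' u
        rw [← h6] at e2
        have hc := cs1 u
        have p1 : 0 ≤ a' ^ 2 * (u : ℂ).re ^ 2 := by positivity
        have p2 : 0 ≤ b' ^ 2 * (u : ℂ).im ^ 2 := by positivity
        have q1 : a' ^ 2 * (u : ℂ).re ^ 2 = 0 := by linarith
        have q2 : b' ^ 2 * (u : ℂ).im ^ 2 = 0 := by linarith
        have r1 : (u : ℂ).re ^ 2 = 0 := by
          rcases mul_eq_zero.1 q1 with h7 | h7
          · exact absurd h7 (by positivity)
          · exact h7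
        have r2 : (u : ℂ).im ^ 2 = 0 := by
          rcases mul_eq_zero.1 q2 with h7 | h7
          · exact absurd h7 (by positivity)
          · exact h7
        linarith
    rw [key u hu] at a1 a2
    have h8 : a ≠ a' ∧ b ≠ b' := by
      rcases h1 with ⟨x, y⟩ | ⟨x, y⟩
      · exact ⟨x.ne', y.ne⟩
      · exact ⟨x.ne, y.ne'⟩
    have h9 : (a ^ 2 - a' ^ 2) * (u : ℂ).re = 0 := by
      rw [a1] at b1
      field_simp at b1
      linarith
    have h10 : (b ^ 2 - b' ^ 2) * (u : ℂ).im = 0 := by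
      rw [a2] at b2
      field_simp at b2
      linarith
    have h11 : a ^ 2 - a' ^ 2 ≠ 0 := by
      intro h12
      apply h8.1
      exact (sq_eq_sq₀ ha.le ha'.le).1 (by linarith)
    have h12 : b ^ 2 - b' ^ 2 ≠ 0 := by
      intro h12
      apply h8.2
      exact (sq_eq_sq₀ hb.le hb'.le).1 (by linarith)
    have h13 := (mul_eq_zero.1 h9).resolve_left h11
    have h14 := (mul_eq_zero.1 h10).resolve_left h12
    have hc := cs1 u
    rw [h13, h14] at hc
    norm_num at hc

theorem crossD (h : S_SUPP) (x σ : ℝ) (hx : 1 ≤ x) (hσ : σ = 1 ∨ σ = -1) :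
    Cross (body (4 * x) (4 * x + 3) 0) (body (4 * x + 3) (4 * x + 3) σ) := by
  obtain ⟨h1, h2, -⟩ := h (4 * x) (4 * x + 3) 0 (by linarith) (by linarith)
  obtain ⟨h3, h4, -⟩ := h (4 * x + 3) (4 * x + 3) σ (by linarith) (by linarith)
  have hσ2 : σ ^ 2 = 1 := by
    rcases hσ with h | h <;> rw [h] <;> norm_num
  have key : ∀ u : Circle, supp (body (4 * x) (4 * x + 3) 0) u = supp (body (4 * x + 3) (4 * x + 3) σ) u →
      rt (4 * x + 3) (4 * x + 3) u = 4 * x + 3 ∧
      rt (4 * x) (4 * x + 3) u = 4 * x + 3 + σ * (u : ℂ).im ∧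
      (24 * x + 8) * (u : ℂ).im ^ 2 + (-2 * (4 * x + 3) * σ) * (u : ℂ).im + (-(24 * x + 9)) = 0 := by
    intro u hu
    rw [h1, h3] at hu
    have e1 := rt_sq (4 * x + 3) (4 * x + 3) u
    have e2 := rt_sq (4 * x) (4 * x + 3) u
    have hc := cs1 u
    have e3 : rt (4 * x + 3) (4 * x + 3) u = 4 * x + 3 := by
      have h5 : rt (4 * x + 3) (4 * x + 3) u ^ 2 = (4 * x + 3) ^ 2 := by
        rw [e1]
        linear_combination (4 * x + 3) ^ 2 * hc
      exact (sq_eq_sq₀ (rt_nn _ _ u) (by linarith)).1 h5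
    have e4 : rt (4 * x) (4 * x + 3) u = 4 * x + 3 + σ * (u : ℂ).im := by
      rw [e3] at hu
      linarith
    refine ⟨e3, e4, ?_⟩
    rw [e4] at e2
    linear_combination -e2 - (4 * x) ^ 2 * hc + (u : ℂ).im ^ 2 * hσ2
  refine ⟨⟨24 * x + 8, -2 * (4 * x + 3) * σ, -(24 * x + 9), by linarith, fun u hu => (key u hu).2.2⟩, ?_⟩
  intro u z hu hz1 hz2 hip
  obtain ⟨e1, e2, e3⟩ := key u hu
  obtain ⟨a1, a2⟩ := h2 u z hz1 hip
  obtain ⟨b1, b2⟩ := h4 u z hz2 (hip.trans hu)
  have hc := cs1 u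
  have hs1 : (σ * (u : ℂ).im) ^ 2 ≤ 1 := by
    rw [mul_pow, hσ2]
    nlinarith [sq_nonneg (u : ℂ).re]
  have hs2 : -1 ≤ σ * (u : ℂ).im := by nlinarith
  rw [e2] at a1
  rw [e1] at b1
  have h5 : (4 * x + 3 + σ * (u : ℂ).im) ≠ 0 := by
    have : 0 < 4 * x + 3 + σ * (u : ℂ).im := by linarith
    exact this.ne'
  have h5' : (4 * x + 3 : ℝ) ≠ 0 := by linarith
  rw [a1] at b1
  have h6 : (u : ℂ).re * ((4 * x + 3) * (4 * x + 3 + σ * (u : ℂ).im) - 16 * x ^ 2) = 0 := by
    have h7 : (4 * x + 3) ^ 2 * (u : ℂ).re / (4 * x + 3) = (4 * x + 3) * (u : ℂ).re := by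
      field_simp
    rw [h7, div_eq_iff h5] at b1
    linear_combination -b1
  rcases mul_eq_zero.1 h6 with h7 | h7
  · rw [h7] at hc
    have h8 : (u : ℂ).im ^ 2 = 1 := by linarith
    have h9 : (σ * (u : ℂ).im) ^ 2 = 1 := by rw [mul_pow, hσ2, h8, one_mul]
    have h10 : -2 * (4 * x + 3) * (σ * (u : ℂ).im) = 1 := by
      rw [h8] at e3
      linarith
    have h11 : (-2 * (4 * x + 3) * (σ * (u : ℂ).im)) ^ 2 = 1 := by rw [h10]; norm_num
    rw [mul_pow, h9, mul_one] at h11
    nlinarith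
  · nlinarith

theorem fm_cross (h : S_SUPP) (l : ℕ) (σ : ℝ) (hl : 1 ≤ l) (hσ : σ = 1 ∨ σ = -1) (i : ℕ)
    (hi : i + 1 ≤ 2 * l + 1) : Cross (fm l σ i) (fm l σ (i + 1)) := by
  rcases Nat.eq_zero_or_pos i with rfl | hi0
  · have e1 : fm l σ 0 = body 2 2 1 := by simp [fm]
    have e2 : fm l σ (0 + 1) = body 5 2 0 := by
      unfold fm
      rw [if_neg (by omega), if_neg (by omega), if_pos (by omega)]
      norm_num
    rw [e1, e2]
    exact crossA h
  · by_cases h2 : i = 2 * l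
    · subst h2
      have e1 : fm l σ (2 * l) = body (4 * (l : ℝ)) (4 * l + 3) 0 := by
        unfold fm
        rw [if_neg (by omega), if_neg (by omega), if_neg (by omega)]
        push_cast
        congr 1 <;> ring
      have e2 : fm l σ (2 * l + 1) = body (4 * l + 3) (4 * l + 3) σ := by
        unfold fm
        rw [if_neg (by omega), if_pos rfl]
      rw [e1, e2]
      exact crossD h l σ (by exact_mod_cast hl) hσ
    · have hi' : i + 1 ≤ 2 * l := by omega
      have hir : (0 : ℝ) < i := by exact_mod_cast hi0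
      rcases Nat.mod_two_eq_zero_or_one i with hm | hm
      · have e1 : fm l σ i = body (2 * i) (2 * i + 3) 0 := by
          unfold fm
          rw [if_neg (by omega), if_neg (by omega), if_neg (by omega)]
        have e2 : fm l σ (i + 1) = body (2 * (i : ℝ) + 5) (2 * i + 2) 0 := by
          unfold fm
          rw [if_neg (by omega), if_neg (by omega), if_pos (by omega)]
          push_cast
          congr 1 <;> ring
        rw [e1, e2]
        exact crossB h _ _ _ _ (by linarith) (by linarith) (by linarith) (by linarith)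
          (Or.inr ⟨by linarith, by linarith⟩)
      · have e1 : fm l σ i = body (2 * i + 3) (2 * i) 0 := by
          unfold fm
          rw [if_neg (by omega), if_neg (by omega), if_pos (by omega)]
        have e2 : fm l σ (i + 1) = body (2 * (i : ℝ) + 2) (2 * i + 5) 0 := by
          unfold fm
          rw [if_neg (by omega), if_neg (by omega), if_neg (by omega)]
          push_cast
          congr 1 <;> ring
        rw [e1, e2]
        exact crossB h _ _ _ _ (by linarith) (by linarith) (by linarith) (by linarith)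
          (Or.inl ⟨by linarith, by linarith⟩)

/-- the range of the support functions, and the bodies -/
theorem fm_range (h : S_SUPP) (l : ℕ) (σ : ℝ) (hl : 1 ≤ l) (hσ : σ = 1 ∨ σ = -1) (i : ℕ)
    (u : Circle) : supp (fm l σ i) u ≤ 2 * i + 3 ∧ (1 ≤ i → 2 * (i : ℝ) ≤ supp (fm l σ i) u) := by
  have hc := cs1 u
  have hlr : (1 : ℝ) ≤ l := by exact_mod_cast hl
  have hs1 : (u : ℂ).im ≤ 1 := by nlinarith [sq_nonneg (u : ℂ).re]
  have hs2 : -1 ≤ (u : ℂ).im := by nlinarith [sq_nonneg (u : ℂ).re]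
  rcases Nat.eq_zero_or_pos i with rfl | hi0
  · have e1 : fm l σ 0 = body 2 2 1 := by simp [fm]
    rw [e1, (h 2 2 1 (by norm_num) (by norm_num)).1]
    have := rt_le 2 2 2 u (by norm_num) le_rfl le_rfl
    refine ⟨?_, fun h => by omega⟩
    push_cast
    linarith
  · have hir : (0 : ℝ) < i := by exact_mod_cast hi0
    by_cases h2 : i = 2 * l + 1
    · subst h2
      have e2 : fm l σ (2 * l + 1) = body (4 * l + 3) (4 * l + 3) σ := by
        unfold fm
        rw [if_neg (by omega), if_pos rfl]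
      rw [e2, (h _ _ _ (by linarith) (by linarith)).1]
      have h3 := rt_le (4 * l + 3) (4 * l + 3) (4 * l + 3) u (by linarith) le_rfl le_rfl
      have h4 := le_rt (4 * l + 3) (4 * l + 3) (4 * l + 3) u le_rfl le_rfl
      have h5 : -1 ≤ σ * (u : ℂ).im ∧ σ * (u : ℂ).im ≤ 1 := by
        rcases hσ with h | h <;> rw [h] <;> constructor <;> linarith
      push_cast
      exact ⟨by linarith [h5.2], fun _ => by linarith [h5.1]⟩
    · rcases Nat.mod_two_eq_zero_or_one i with hm | hm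
      · have e1 : fm l σ i = body (2 * i) (2 * i + 3) 0 := by
          unfold fm
          rw [if_neg (by omega), if_neg h2, if_neg (by omega)]
        rw [e1, (h _ _ _ (by linarith) (by linarith)).1, zero_mul, zero_add]
        refine ⟨rt_le _ _ _ u (by linarith) (by nlinarith) le_rfl, fun _ => ?_⟩
        exact le_rt _ _ _ u le_rfl (by nlinarith)
      · have e1 : fm l σ i = body (2 * i + 3) (2 * i) 0 := by
          unfold fm
          rw [if_neg (by omega), if_neg h2, if_pos (by omega)]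
        rw [e1, (h _ _ _ (by linarith) (by linarith)).1, zero_mul, zero_add]
        refine ⟨rt_le _ _ _ u (by linarith) le_rfl (by nlinarith), fun _ => ?_⟩
        exact le_rt _ _ _ u (by nlinarith) le_rfl

theorem fm_body (h : S_SUPP) (l : ℕ) (σ : ℝ) (i : ℕ) :
    (fm l σ i).Nonempty ∧ IsCompact (fm l σ i) ∧ Convex ℝ (fm l σ i) := by
  have hlr : (0 : ℝ) ≤ l := Nat.cast_nonneg l
  unfold fm
  split_ifs with h1 h2 h3
  · exact (h _ _ _ (by norm_num) (by norm_num)).2.2
  · exact (h _ _ _ (by linarith) (by linarith)).2.2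
  · have hir : (0 : ℝ) < i := by exact_mod_cast Nat.pos_of_ne_zero h1
    exact (h _ _ _ (by linarith) (by linarith)).2.2
  · have hir : (0 : ℝ) < i := by exact_mod_cast Nat.pos_of_ne_zero h1
    exact (h _ _ _ (by linarith) (by linarith)).2.2

theorem consec (h : S_SUPP) (l : ℕ) (σ : ℝ) (hl : 1 ≤ l) (hσ : σ = 1 ∨ σ = -1) (i j : ℕ)
    (hij : i ≠ j) (u : Circle) (hu : supp (fm l σ i) u = supp (fm l σ j) u) :
    j = i + 1 ∨ i = j + 1 := by
  by_contra hne
  push Not at hne
  obtain ⟨n1, n2⟩ := hne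
  have hi := fm_range h l σ hl hσ i u
  have hj := fm_range h l σ hl hσ j u
  rcases lt_or_gt_of_ne hij with h1 | h1
  · have h2 : i + 2 ≤ j := by omega
    have h3 : (i : ℝ) + 2 ≤ j := by exact_mod_cast h2
    have h4 := hj.2 (by omega)
    linarith [hi.1]
  · have h2 : j + 2 ≤ i := by omega
    have h3 : (j : ℝ) + 2 ≤ i := by exact_mod_cast h2
    have h4 := hi.2 (by omega)
    linarith [hj.1]

theorem t_ARR (hSUPP : S_SUPP) (hCNT : S_CNT) : S_ARR := by
  intro l σ hl hσ
  have hcr : ∀ i j : Fin (2 * l + 2), j.val = i.val + 1 → Cross (fam l σ i) (fam l σ j) := by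
    intro i j hij
    rw [fam_eq, fam_eq, hij]
    exact fm_cross hSUPP l σ hl hσ i.val (by have := j.2; omega)
  have hcon : ∀ i j : Fin (2 * l + 2), i ≠ j → ∀ u : Circle, supp (fam l σ i) u = supp (fam l σ j) u →
      j.val = i.val + 1 ∨ i.val = j.val + 1 := by
    intro i j hij u hu
    rw [fam_eq, fam_eq] at hu
    exact consec hSUPP l σ hl hσ i.val j.val (fun h => hij (Fin.ext h)) u hu
  refine ⟨fun i => fm_body hSUPP l σ i.val, ?_, ?_, ?_⟩
  · intro i j hij u hu z hz1 hz2 hip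
    rcases hcon i j hij u hu with h1 | h1
    · exact (hcr i j h1).trans u z hu hz1 hz2 hip
    · exact (hcr j i h1).trans u z hu.symm hz2 hz1 (hip.trans hu)
  · rintro i j k hij hik hjk u ⟨h1, h2⟩
    have a1 := hcon i j hij u h1
    have a2 := hcon j k hjk u h2
    have a3 := hcon i k hik u (h1.trans h2)
    omega
  · intro i j hij
    -- symmetric reduction
    have main : ∀ i j : Fin (2 * l + 2), j.val = i.val + 1 →
        {u : Circle | supp (fam l σ i) u = supp (fam l σ j) u}.Finite ∧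
        {u : Circle | supp (fam l σ i) u = supp (fam l σ j) u}.ncard ≤ 4 := by
      intro i j h1
      obtain ⟨α, β, γ, hα, hq⟩ := (hcr i j h1).quad
      obtain ⟨f1, f2⟩ := hCNT α β γ hα
      have hsub : {u : Circle | supp (fam l σ i) u = supp (fam l σ j) u} ⊆
          {u : Circle | α * (u : ℂ).im ^ 2 + β * (u : ℂ).im + γ = 0} := fun u hu => hq u hu
      exact ⟨f1.subset hsub, (Set.ncard_le_ncard hsub f1).trans f2⟩
    by_cases h1 : j.val = i.val + 1
    · exact main i j h1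
    · by_cases h2 : i.val = j.val + 1
      · have h3 : {u : Circle | supp (fam l σ i) u = supp (fam l σ j) u} =
            {u : Circle | supp (fam l σ j) u = supp (fam l σ i) u} := by
          ext u
          exact eq_comm
        rw [h3]
        exact main j i h2
      · have h3 : {u : Circle | supp (fam l σ i) u = supp (fam l σ j) u} = ∅ := by
          apply Set.eq_empty_of_forall_notMem
          intro u hu
          rcases hcon i j hij u hu with h4 | h4
          · exact h1 h4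
          · exact h2 h4
        rw [h3]
        exact ⟨Set.finite_empty, by simp⟩

end Pool.Agent.Q153.CB
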