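import Pool.Agent.Q264.CB.Stm

/-!
# Project CB (helper264), job CB-CNT: at most four points of the circle satisfy a quadratic equation in the
imaginary part
-/

set_option autoImplicit false

namespace Pool.Agent.Q153.CB

open Pool.Agent.Q264.CB Polynomial

theorem t_CNT : S_CNT := by
  intro α β γ hα
  classical
  set p : ℝ[X] := C α * X ^ 2 + C β * X + C γ with hp
  have hdeg : p.natDegree = 2 := natDegree_quadratic hα
  have hp0 : p ≠ 0 := by
    intro h
    rw [h, natDegree_zero] at hdeg
    omega
  have hcard : p.roots.toFinset.card ≤ 2 := by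
    calc p.roots.toFinset.card ≤ Multiset.card p.roots := Multiset.toFinset_card_le _
      _ ≤ p.natDegree := card_roots' p
      _ = 2 := hdeg
  have hmem : ∀ x : ℝ, α * x ^ 2 + β * x + γ = 0 → x ∈ p.roots.toFinset := by
    intro x hx
    rw [Multiset.mem_toFinset, mem_roots hp0, IsRoot.def, hp]
    simpa using hx
  set S : Set Circle := {u : Circle | α * (u : ℂ).im ^ 2 + β * (u : ℂ).im + γ = 0} with hS
  set f : Circle → ℝ × Bool := fun u => ((u : ℂ).im, decide (0 ≤ (u : ℂ).re)) with hf
  have hinj : Function.Injective f := by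
    intro u v huv
    have h1 : (u : ℂ).im = (v : ℂ).im := congrArg Prod.fst huv
    have h2 : decide (0 ≤ (u : ℂ).re) = decide (0 ≤ (v : ℂ).re) := congrArg Prod.snd huv
    have h2' : (0 ≤ (u : ℂ).re) ↔ (0 ≤ (v : ℂ).re) := by
      simpa using h2
    have hu : (u : ℂ).re * (u : ℂ).re + (u : ℂ).im * (u : ℂ).im = 1 := by
      rw [← Complex.normSq_apply]
      exact Circle.normSq_coe u
    have hv : (v : ℂ).re * (v : ℂ).re + (v : ℂ).im * (v : ℂ).im = 1 := by
      rw [← Complex.normSq_apply]
      exact Circle.normSq_coe v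
    have h3 : (u : ℂ).re ^ 2 = (v : ℂ).re ^ 2 := by
      rw [h1] at hu
      nlinarith
    apply Circle.ext
    apply Complex.ext _ h1
    rcases sq_eq_sq_iff_eq_or_eq_neg.1 h3 with h | h
    · exact h
    · by_cases h0 : 0 ≤ (u : ℂ).re
      · have h4 := h2'.1 h0
        have h5 : (v : ℂ).re = 0 := by linarith
        rw [h, h5, neg_zero]
      · have h4 : ¬ 0 ≤ (v : ℂ).re := fun h6 => h0 (h2'.2 h6)
        exfalso
        push Not at h0 h4
        linarith
  have hsub : Set.MapsTo f S ((p.roots.toFinset ×ˢ (Finset.univ : Finset Bool) : Finset (ℝ × Bool)) :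
      Set (ℝ × Bool)) := by
    intro u hu
    rw [Finset.mem_coe, Finset.mem_product]
    exact ⟨hmem _ hu, Finset.mem_univ _⟩
  have hc4 : (p.roots.toFinset ×ˢ (Finset.univ : Finset Bool)).card ≤ 4 := by
    rw [Finset.card_product, Finset.card_univ, Fintype.card_bool]
    omega
  constructor
  · exact Set.Finite.of_injOn hsub hinj.injOn (Finset.finite_toSet _)
  · have h1 := Set.ncard_le_ncard_of_injOn f hsub hinj.injOn (Finset.finite_toSet _)
    rw [Set.ncard_coe_finset] at h1
    omega

end Pool.Agent.Q153.CB
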