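import Pool.Agent.Q264.CB.Stm

/-!
# Project CB (helper264), job CB-TWIST: the twist homeomorphisms of the cylinder
-/

set_option autoImplicit false

namespace Pool.Agent.Q153.CB

open Pool.Agent.Q264.CB

theorem t_TWIST : S_TWIST := by
  intro s hs
  have hc : Continuous fun y : ℝ => Circle.exp (Real.pi * s y) :=
    Circle.exp.continuous.comp (continuous_const.mul hs)
  have hc' : Continuous fun y : ℝ => Circle.exp (-(Real.pi * s y)) :=
    Circle.exp.continuous.comp (continuous_const.mul hs).neg
  let φ : (Circle × ℝ) ≃ₜ (Circle × ℝ) :=
    { toFun := fun p => (p.1 * Circle.exp (Real.pi * s p.2), p.2)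
      invFun := fun p => (p.1 * Circle.exp (-(Real.pi * s p.2)), p.2)
      left_inv := fun p => by
        apply Prod.ext
        · show p.1 * Circle.exp (Real.pi * s p.2) * Circle.exp (-(Real.pi * s p.2)) = p.1
          rw [mul_assoc, ← Circle.exp_add, add_neg_cancel, Circle.exp_zero, mul_one]
        · rfl
      right_inv := fun p => by
        apply Prod.ext
        · show p.1 * Circle.exp (-(Real.pi * s p.2)) * Circle.exp (Real.pi * s p.2) = p.1
          rw [mul_assoc, ← Circle.exp_add, neg_add_cancel, Circle.exp_zero, mul_one]
        · rfl
      continuous_toFun := by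
        exact (continuous_fst.mul (hc.comp continuous_snd)).prodMk continuous_snd
      continuous_invFun := by
        exact (continuous_fst.mul (hc'.comp continuous_snd)).prodMk continuous_snd }
  refine ⟨φ, fun u y => rfl, fun u y => rfl, ⟨?_⟩⟩
  exact
    { toFun := fun q => (q.2.1 * Circle.exp ((1 - (q.1 : ℝ)) * (Real.pi * s q.2.2)), q.2.2)
      continuous_toFun := by
        refine Continuous.prodMk ?_ (continuous_snd.comp continuous_snd)
        refine (continuous_fst.comp continuous_snd).mul (Circle.exp.continuous.comp ?_)
        refine Continuous.mul ?_ ?_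
        · exact continuous_const.sub (continuous_subtype_val.comp continuous_fst)
        · exact continuous_const.mul (hs.comp (continuous_snd.comp continuous_snd))
      map_zero_left := fun p => by
        apply Prod.ext
        · show p.1 * Circle.exp ((1 - ((0 : unitInterval) : ℝ)) * (Real.pi * s p.2)) =
            p.1 * Circle.exp (Real.pi * s p.2)
          rw [Set.Icc.coe_zero, sub_zero, one_mul]
        · rfl
      map_one_left := fun p => by
        apply Prod.ext
        · show p.1 * Circle.exp ((1 - ((1 : unitInterval) : ℝ)) * (Real.pi * s p.2)) = p.1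
          rw [Set.Icc.coe_one, sub_self, zero_mul, Circle.exp_zero, mul_one]
        · rfl }

end Pool.Agent.Q153.CB
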